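import Pool.Agent.Helper88.QT.St4

set_option autoImplicit false

open MeasureTheory Set Topology
open scoped ENNReal ComplexConjugate

namespace Pool.Agent.Helper10.QT

open Pool.Agent.Helper88.QT Pool.Agent.Helper85.QT Pool.Agent.Helper86.QA

private theorem diff (g : SL) (ξ b : ℂ) (h : g 1 0 * ξ + g 1 1 ≠ 0) (hb : g 1 0 * b + g 1 1 ≠ 0)
    (hd : g 0 0 * g 1 1 - g 0 1 * g 1 0 = 1) (hf : mb g b = b) :
    mb g ξ - b = (ξ - b) / ((g 1 0 * ξ + g 1 1) * (g 1 0 * b + g 1 1)) := by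
  have h1 : mb g ξ - mb g b = (ξ - b) / ((g 1 0 * ξ + g 1 1) * (g 1 0 * b + g 1 1)) := by
    unfold mb
    rw [div_sub_div _ _ h hb]
    congr 1
    linear_combination (ξ - b) * hd
  rw [hf] at h1
  exact h1

theorem hMLX (hGPM : Pool.Agent.Helper88.QT.StGPM) : Pool.Agent.Helper88.QT.StMLX := by
  intro g a b t hab ha hfa hb hfb h1 hga
  obtain ⟨p1, p2, -⟩ := hGPM
  have hd : g 0 0 * g 1 1 - g 0 1 * g 1 0 = 1 := by
    have h := g.det_coe
    rw [Matrix.det_fin_two] at h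
    exact h
  obtain ⟨qa, hqa⟩ : ∃ q : ℂ, q = g 1 0 * a + g 1 1 := ⟨_, rfl⟩
  obtain ⟨qb, hqb⟩ : ∃ q : ℂ, q = g 1 0 * b + g 1 1 := ⟨_, rfl⟩
  have hab' : a - b ≠ 0 := sub_ne_zero.2 hab
  have ea : g 0 0 * a + g 0 1 = a * qa := by
    have h2 : (g 0 0 * a + g 0 1) / (g 1 0 * a + g 1 1) = a := hfa
    rw [div_eq_iff ha] at h2
    rw [h2, hqa]
  have eb : g 0 0 * b + g 0 1 = b * qb := by
    have h2 : (g 0 0 * b + g 0 1) / (g 1 0 * b + g 1 1) = b := hfb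
    rw [div_eq_iff hb] at h2
    rw [h2, hqb]
  have hq : qa * qb = 1 := by
    have h2 : (a - b) * (qa * qb) = (a - b) * 1 := by
      have h3 : (g 0 0 * a + g 0 1) * (g 1 0 * b + g 1 1) -
          (g 0 0 * b + g 0 1) * (g 1 0 * a + g 1 1) = (a - b) := by
        linear_combination (a - b) * hd
      rw [ea, eb, ← hqa, ← hqb] at h3
      linear_combination h3
    exact mul_left_cancel₀ hab' h2
  have hqa0 : qa ≠ 0 := by
    rw [hqa]
    exact ha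
  have hqb0 : qb ≠ 0 := by
    rw [hqb]
    exact hb
  -- the translation length
  have ht : t = Real.log (‖qa‖ / ‖qb‖) := by
    have h2 := (p2 g a b 0 hab ha hb).2
    rw [hga 0, hfa, hfb, ← hqa, ← hqb] at h2
    rw [zero_add, zero_add] at h2
    have h3 := (p1 a b t t hab).2.1
    have h4 := (p1 a b t (Real.log (‖qa‖ / ‖qb‖)) hab).2.1
    rw [← h2, h3, sub_self, Real.cosh_zero] at h4
    by_contra hne
    have h5 : 1 < Real.cosh (t - Real.log (‖qa‖ / ‖qb‖)) :=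
      Real.one_lt_cosh.2 (sub_ne_zero.2 hne)
    linarith
  have hn : ‖qa‖ * ‖qb‖ = 1 := by
    rw [← norm_mul, hq, norm_one]
  have hna : 0 < ‖qa‖ := norm_pos_iff.2 hqa0
  have hnb : 0 < ‖qb‖ := norm_pos_iff.2 hqb0
  have ht2 : t = 2 * Real.log ‖qa‖ := by
    have h2 : ‖qa‖ / ‖qb‖ = ‖qa‖ ^ 2 := by
      rw [div_eq_iff hnb.ne']
      calc ‖qa‖ = ‖qa‖ * (‖qa‖ * ‖qb‖) := by rw [hn, mul_one]
        _ = ‖qa‖ ^ 2 * ‖qb‖ := by ring
    rw [ht, h2, Real.log_pow]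
    norm_num
  have hre : (2 * Complex.log qa).re = 2 * Real.log ‖qa‖ := by
    rw [show (2 : ℂ) = ((2 : ℝ) : ℂ) by norm_num, Complex.re_ofReal_mul, Complex.log_re]
  have hexp : Complex.exp (2 * Complex.log qa) = qa ^ 2 := by
    rw [two_mul, Complex.exp_add, Complex.exp_log hqa0, pow_two]
  have hpos : 0 < Real.log ‖qa‖ := Real.log_pos (by rw [hqa]; exact h1)
  refine ⟨2 * Complex.log qa, ⟨hab.symm, hb, hfb, ha, hfa, ?_⟩, by rw [hre, ht2], by
    rw [hre]; linarith⟩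
  intro ξ hξ hq0
  rw [diff g ξ b hq0 hb hd hfb, diff g ξ a hq0 ha hd hfa, hexp, ← hqa, ← hqb]
  have h5 : ξ - a ≠ 0 := sub_ne_zero.2 hξ
  rw [div_div_div_eq, mul_div_assoc', div_eq_div_iff
    (mul_ne_zero (mul_ne_zero hq0 hqb0) h5) h5]
  linear_combination (-(ξ - b) * (g 1 0 * ξ + g 1 1) * qa * (ξ - a)) * hq

end Pool.Agent.Helper10.QT
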