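import Pool.Agent.Helper88.QT.St2

set_option autoImplicit false

open MeasureTheory Set Topology
open scoped ENNReal ComplexConjugate

namespace Pool.Agent.Helper10.QT

open Pool.Agent.Helper88.QT Pool.Agent.Helper85.QT Pool.Agent.Helper86.QA

theorem hPFM (hFDM : Pool.Agent.Helper88.QT.StFDM) : Pool.Agent.Helper88.QT.StPFM := by
  intro A B lam K hlam hK
  obtain ⟨f1, -, f3, -, -, -⟩ := hFDM lam hlam
  by_contra hcon
  push Not at hcon
  have hstep : ∀ k : ℕ, ∃ ξ : Fin k → ℂ, (∀ y, ξ y ∈ LS A B ∧ ξ y ≠ 0) ∧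
      ∀ y y', y ≠ y' → ∀ n : ℤ, 1 ≤ fd lam (ξ y) (Complex.exp (n * lam) * ξ y') := by
    intro k
    induction k with
    | zero => exact ⟨Fin.elim0, fun y => y.elim0, fun y => y.elim0⟩
    | succ k ih =>
      obtain ⟨ξ, h1, h2⟩ := ih
      obtain ⟨η, hη, hη0, h3⟩ := hcon k ξ (hK k ξ h1 h2) h1
      refine ⟨Fin.snoc ξ η, ?_, ?_⟩
      · intro y
        refine Fin.lastCases ?_ (fun i => ?_) y
        · rw [Fin.snoc_last]
          exact ⟨hη, hη0⟩
        · rw [Fin.snoc_castSucc]
          exact h1 i
      · intro y y'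
        refine Fin.lastCases ?_ (fun i => ?_) y
        · refine Fin.lastCases ?_ (fun j => ?_) y'
          · intro h
            exact absurd rfl h
          · intro _ n
            rw [Fin.snoc_last, Fin.snoc_castSucc]
            exact h3 j n
        · refine Fin.lastCases ?_ (fun j => ?_) y'
          · intro _ n
            rw [Fin.snoc_last, Fin.snoc_castSucc]
            have e1 : Complex.exp (((-n : ℤ) : ℂ) * lam) * Complex.exp ((n : ℂ) * lam) = 1 := by
              rw [← Complex.exp_add]
              push_cast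
              rw [neg_mul, neg_add_cancel, Complex.exp_zero]
            have h4 := f3 (Complex.exp (((-n : ℤ) : ℂ) * lam)) (ξ i)
              (Complex.exp ((n : ℂ) * lam) * η) (Complex.exp_ne_zero _) (h1 i).2
              (mul_ne_zero (Complex.exp_ne_zero _) hη0)
            rw [← mul_assoc, e1, one_mul] at h4
            rw [← h4, (f1 _ _ (mul_ne_zero (Complex.exp_ne_zero _) (h1 i).2) hη0).1]
            exact h3 i (-n)
          · intro h n
            rw [Fin.snoc_castSucc, Fin.snoc_castSucc]
            exact h2 i j (fun h0 => h (by rw [h0])) n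
  obtain ⟨ξ, h1, h2⟩ := hstep (⌈K⌉₊ + 1)
  have h3 := hK _ ξ h1 h2
  have h4 := Nat.le_ceil K
  push_cast at h3
  linarith

end Pool.Agent.Helper10.QT
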